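import Pool.Agent.H952Z.Hull.Final

/-!
# Monotone Borel hulls: null sets yes, measurable sets no, under Martin's axiom

Under `MA_{ℵ₁}` pick compact sets `K a` of positive measure and points `x a` in the Borel kernel of
`K a` (`a < ω₁`) with `x a ∉ K b` for `a < b`. The finite sets of ordinals with `x b ∉ K a` for
`a < b` form a ccc order, so there is an uncountable such set `S`. The union of the `K a`, `a ∈ S`,
is measurable, and its kernel is a Borel set covered by countably many `K a`; a contradiction.
-/

set_option autoImplicit false

namespace Pool.Agent.Results.MP_e5f4bd_lc.AQ1Consistent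

open Pool.Agent.H952Z.Hull Pool.Agent.H952Z.FMA Pool.Agent.Helper292.ForceCH

/-- Some forcing notion preserves `ω₁` and forces Martin's axiom and `MA_{ℵ₁}`; and these two
axioms imply that there is a monotone Borel hull operation on the null sets but none on the
Lebesgue measurable sets. -/
theorem result :
    (∃ (P : Type 1) (_ : Preorder P), Nonempty P ∧
      ∀ p : P, p ∈ OmegaOnePreserved P ∧ p ∈ MAHolds P ∧ p ∈ MAForHolds P Om) ∧
    (MartinAxiom → MartinAxiomFor Om →
      (∃ ψ : nullSets → Set ℝ, IsMonotoneHull nullSets ψ) ∧
        ¬ ∃ ψ : lebesgueSets → Set ℝ, IsMonotoneHull lebesgueSets ψ) :=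
  ⟨force_part, fun h h1 => (zfc_part h h1).2⟩

end Pool.Agent.Results.MP_e5f4bd_lc.AQ1Consistent
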