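import Pool.Agent.H952Z.Hull.Final

/-!
# `add(N) = cof(N)` without a monotone Borel hull operation on the measurable sets
-/

set_option autoImplicit false

namespace Pool.Agent.Results.MP_e5f4bd_lc.BQ2Consistent

open Pool.Agent.H952Z.Hull Pool.Agent.H952Z.FMA Pool.Agent.Helper292.ForceCH

/-- Some forcing notion preserves `ω₁` and forces Martin's axiom and `MA_{ℵ₁}`; and these two
axioms imply that `add(N) = cof(N)` and that there is no monotone Borel hull operation on the
Lebesgue measurable sets. -/
theorem result :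
    (∃ (P : Type 1) (_ : Preorder P), Nonempty P ∧
      ∀ p : P, p ∈ OmegaOnePreserved P ∧ p ∈ MAHolds P ∧ p ∈ MAForHolds P Om) ∧
    (MartinAxiom → MartinAxiomFor Om →
      addNull = cofNull ∧ ¬ ∃ ψ : lebesgueSets → Set ℝ, IsMonotoneHull lebesgueSets ψ) :=
  ⟨force_part, fun h h1 => ⟨(zfc_part h h1).1, (zfc_part h h1).2.2⟩⟩

end Pool.Agent.Results.MP_e5f4bd_lc.BQ2Consistent
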